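import Mathlib
import Pool.Agent.Helper27.TE.Cyc
import Pool.Agent.Helper27.TE.NoWalk
import Pool.Agent.Helper27.TG.Final
import Pool.Agent.Helper27.LP.Uniform

/-!
# Tame representations whose residual quiver has no infinite walk

Let `K` be a number field, `S` a set of primes of `K`, `A` a Noetherian local ring with finite
residue field `k` of characteristic `p`, with its adic topology, and `ρ` a continuous representation
of the absolute Galois group `G` of `K` over `A`, of any dimension `n`, unramified outside `S` and at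
most tamely ramified in `S`. Assume that `ρ` is residually block upper triangular, with block
diagonal part `D`, and that the order of the image of `D` is prime to `p`. For instance, `ρ` may be
residually upper triangular.

The quiver of `ρ` has the diagonal blocks `V a` as vertices; there is an arrow from `a` to `c` if
there is a continuous homomorphism from the kernel of `D` to `Hom (V a, V c)`, equivariant
under `G`, unramified outside the primes of `S` which are not above `p`, and not scalar, that
is, non-zero if `a` and `c` are different, and with values not all in `k` if `a = c`. In other words,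
there is a tame extension of `V a` by `V c` over `k` which is non-split and does not come from a
twist by scalars. In particular there are no loops at one-dimensional blocks. All arrows are
explicit: an arrow from `a` to `c` comes from a prime `q` in `S`, not above `p`, such that there is a
non-scalar homomorphism from the twist of `V a` by the cyclotomic character to `V c` on a decomposition
group at `q`, or from the class group of the field cut out by `D` (theorem `local_or_class`).

If this quiver has no infinite walk (no closed walk), then all products of `n` matrices `ρ g - 1`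
with `g` in the commutator subgroup of the kernel of `D` vanish, even if `S` is infinite; and if
`S` is finite then `ρ` has finite image. Moreover all such representations of dimension `n`, for all
primes `p` and all coefficient rings `A` together, factor through one finite quotient of `G`, which
only depends on `K`, `S` and `n`. For instance, a residually reducible representation of dimension
two has finite image, if not both groups of tame classes attached to its two residual characters are
non-zero (theorem `two`).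

If `p` is odd and does not divide the class number of `K(ζ_p)`, and the diagonal characters are
powers of the cyclotomic character modulo `p` with exponents `a i`, it is enough that there is no closed
walk for the relation `i → j` if `a j` and `a i + 1` are congruent modulo the order of the norm of `q`
modulo `p`, for some `q` in `S` not above `p` (theorem `cyclotomic`; then the whole kernel of `D` acts
unipotently). This holds if `f` divides the orders modulo `p` of all these norms and the `a i` do
not represent all residue classes modulo `f`, for instance if `n < f` (theorem `noWalk_step`). For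
`K = ℚ` and `p` regular, `S` may consist of `p` and of primitive roots modulo `p`, and then all
`n ≤ p - 2` are covered (theorem `rational`).

Idea of the proof. Let `P` be the kernel of `D` and work over `R = A / m ^ r`. The image of `P` is a
`p`-group; a complement can be conjugated to a block diagonal group. Let `I` be the ideal generated by the
entries of the matrices `ρ g`, with `g` in `P`, in the blocks from `a` to `c` without a walk from `a` to
`c`, and by the differences of `ρ g` and scalars in the diagonal blocks. If `I` is not zero, choose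
a block whose entries are not all in `m I`, as close to the residually trivial corner as possible; then a
linear functional on `I / m I` gives an equivariant homomorphism, hence an arrow, a contradiction. So the
image of `P` is block triangular with scalar diagonal blocks. Its subgroup `P'` with trivial diagonal is
unipotent, so nilpotent of class at most `n`, and `P / P'` is abelian. Abelian quotients are bounded: the
exponent is bounded since cyclic unramified extensions of a number field have bounded degree (Hilbert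
94) and by the tame relation, and there are only finitely many tame extensions of bounded degree.
The kernels of all possible `D`, for all `p`, contain one open subgroup, by the theorem of Jordan on
finite linear groups, which holds for groups of order prime to `p` also in characteristic `p`; and for
large `p` the maximal tame pro-`p` extension of its fixed field is trivial.
-/

set_option autoImplicit false

open NumberField IsLocalRing Matrix

namespace Pool.Agent.Results.MP_924d78_nt.AcyclicQuiver

/-- The homomorphism `ρ` from the absolute Galois group of `K` is unramified outside `S` and at most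
tamely ramified in `S`: for every number field `F` over `K`, embedded into the fixed field of the
kernel of `ρ`, and every maximal ideal `P` of the ring of integers of `F` above a prime `q` of `K`,
the ramification index `e` of `P` over `q` is `1` if `q ∉ S` and is prime to the residue
characteristic if `q ∈ S`. -/
def TameAt (K : Type) [Field K] [NumberField K] (S : Set (Ideal (𝓞 K))) {H : Type} [Group H]
    (ρ : (AlgebraicClosure K ≃ₐ[K] AlgebraicClosure K) →* H) : Prop :=
  ∀ (F : Type) [Field F] [NumberField F] [Algebra K F] (ι : F →ₐ[K] AlgebraicClosure K),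
    ι.fieldRange ≤ IntermediateField.fixedField ρ.ker →
    ∀ (P : Ideal (𝓞 F)), P.IsMaximal →
    ∀ (q : Ideal (𝓞 K)), q = P.comap (algebraMap (𝓞 K) (𝓞 F)) →
    ∀ e : ℕ, q.map (algebraMap (𝓞 K) (𝓞 F)) ≤ P ^ e →
      ¬ (q.map (algebraMap (𝓞 K) (𝓞 F)) ≤ P ^ (e + 1)) →
      (q ∉ S → e = 1) ∧ (q ∈ S → ¬ (ringChar (𝓞 K ⧸ q) ∣ e))

/-- The relation `E` has no infinite walk. -/
def NoWalk {α : Type} (E : α → α → Prop) : Prop := ¬ ∃ c : ℕ → α, ∀ m, E (c m) (c (m + 1))

section

variable {K : Type} [Field K] [NumberField K] {k : Type} [Field k] {n : ℕ}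

/-- The matrix `M` is scalar on the block `a` and zero elsewhere. -/
def IsScalar (b : Fin n → ℕ) (a : ℕ) (M : Matrix (Fin n) (Fin n) k) : Prop :=
  ∃ s : k, M = s • Matrix.diagonal fun x => if b x = a then 1 else 0

/-- Let `D` be a block diagonal representation, with blocks given by `b`. The function `κ`, of which
only the values on the kernel of `D` are relevant, is a continuous homomorphism from the kernel of `D`
to the homomorphisms from the block `a` to the block `c`, equivariant under the absolute Galois group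
of `K`, and not scalar. -/
def Cocycle (D : (AlgebraicClosure K ≃ₐ[K] AlgebraicClosure K) →* Matrix (Fin n) (Fin n) k)
    (b : Fin n → ℕ) (a c : ℕ)
    (κ : (AlgebraicClosure K ≃ₐ[K] AlgebraicClosure K) → Matrix (Fin n) (Fin n) k) : Prop :=
  (∀ g, D g = 1 → ∀ x y, κ g x y ≠ 0 → b y = a ∧ b x = c) ∧
  (∀ g h, D g = 1 → D h = 1 → κ (g * h) = κ g + κ h) ∧
  (∀ g h, D g = 1 → κ (h * g * h⁻¹) = D h * κ g * D h⁻¹) ∧
  (∃ U : Subgroup (AlgebraicClosure K ≃ₐ[K] AlgebraicClosure K),
    IsOpen (U : Set (AlgebraicClosure K ≃ₐ[K] AlgebraicClosure K)) ∧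
      ∀ g ∈ U, D g = 1 → κ g = 0) ∧
  ∃ g, D g = 1 ∧ ¬ IsScalar b a (κ g)

/-- An arrow of the quiver: a cocycle which is trivial on the inertia groups at all primes which are
not above `S`, and at all primes above `p`. -/
def Arrow (S : Set (Ideal (𝓞 K))) (p : ℕ)
    (D : (AlgebraicClosure K ≃ₐ[K] AlgebraicClosure K) →* Matrix (Fin n) (Fin n) k)
    (b : Fin n → ℕ) (a c : ℕ) : Prop :=
  ∃ κ, Cocycle D b a c κ ∧ ∀ Q : Ideal (𝓞 (AlgebraicClosure K)), Q.IsMaximal →
    (Q.comap (algebraMap (𝓞 K) (𝓞 (AlgebraicClosure K))) ∉ S ∨ (p : 𝓞 (AlgebraicClosure K)) ∈ Q) →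
    ∀ g ∈ Q.inertia (AlgebraicClosure K ≃ₐ[K] AlgebraicClosure K), D g = 1 → κ g = 0

/-- A class group arrow: a cocycle which is trivial on the inertia groups at all primes. -/
def ClassArrow (D : (AlgebraicClosure K ≃ₐ[K] AlgebraicClosure K) →* Matrix (Fin n) (Fin n) k)
    (b : Fin n → ℕ) (a c : ℕ) : Prop :=
  ∃ κ, Cocycle D b a c κ ∧ ∀ Q : Ideal (𝓞 (AlgebraicClosure K)), Q.IsMaximal →
    ∀ g ∈ Q.inertia (AlgebraicClosure K ≃ₐ[K] AlgebraicClosure K), D g = 1 → κ g = 0

/-- A local arrow: there are a prime `Q` above `S`, not above `p`, and a non-scalar homomorphism `T`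
from the block `a` to the block `c` with `D g T = N T D g` for all `g` which act on the residue field
of `Q` as the `N`-th power map. -/
def LocalArrow (S : Set (Ideal (𝓞 K))) (p : ℕ)
    (D : (AlgebraicClosure K ≃ₐ[K] AlgebraicClosure K) →* Matrix (Fin n) (Fin n) k)
    (b : Fin n → ℕ) (a c : ℕ) : Prop :=
  ∃ Q : Ideal (𝓞 (AlgebraicClosure K)), Q.IsMaximal ∧
    Q.comap (algebraMap (𝓞 K) (𝓞 (AlgebraicClosure K))) ∈ S ∧ (p : 𝓞 (AlgebraicClosure K)) ∉ Q ∧
    ∃ T : Matrix (Fin n) (Fin n) k, ¬ IsScalar b a T ∧ (∀ x y, T x y ≠ 0 → b y = a ∧ b x = c) ∧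
      ∀ (g : AlgebraicClosure K ≃ₐ[K] AlgebraicClosure K) (N : ℕ),
        (∀ x : 𝓞 (AlgebraicClosure K), g • x - x ^ N ∈ Q) → D g * T = N • (T * D g)

/-- The relation on the indices of powers of the cyclotomic character with exponents `a`: some
prime `q` in `S`, not above `p`, satisfies `N(q) ^ (a j) = N(q) ^ (a i + 1)` modulo `p`. -/
def Step (S : Set (Ideal (𝓞 K))) (p : ℕ) (a : Fin n → ℕ) (i j : Fin n) : Prop :=
  ∃ q ∈ S, q.IsMaximal ∧ (p : 𝓞 K) ∉ q ∧
    ((Nat.card (𝓞 K ⧸ q) : ℕ) : ZMod p) ^ a j = ((Nat.card (𝓞 K ⧸ q) : ℕ) : ZMod p) ^ (a i + 1)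

variable {A : Type} [CommRing A] [IsLocalRing A] [TopologicalSpace A]

/-- The representation `ρ` is continuous and tame in `S`, and residually block upper triangular with
respect to `b` with block diagonal part `D`, and the image of `D` has order prime to `p`. -/
def ResiduallyBlock (S : Set (Ideal (𝓞 K))) (p : ℕ)
    (ρ : (AlgebraicClosure K ≃ₐ[K] AlgebraicClosure K) →* GL (Fin n) A) (b : Fin n → ℕ)
    (D : (AlgebraicClosure K ≃ₐ[K] AlgebraicClosure K) →* Matrix (Fin n) (Fin n) (ResidueField A)) :
    Prop :=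
  Continuous ρ ∧ TameAt K S ρ ∧ (∀ g x y, b y < b x → residue A (ρ g x y) = 0) ∧
    (∀ g x y, D g x y = if b x = b y then residue A (ρ g x y) else 0) ∧ ¬ p ∣ D.ker.index

/-- The representation `ρ` is continuous and tame in `S`, and residually upper triangular with
diagonal characters the powers with exponents `a` of the cyclotomic character modulo `p`. -/
def ResiduallyCyclotomic (S : Set (Ideal (𝓞 K))) (p : ℕ)
    (ρ : (AlgebraicClosure K ≃ₐ[K] AlgebraicClosure K) →* GL (Fin n) A) (a : Fin n → ℕ) : Prop :=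
  Continuous ρ ∧ TameAt K S ρ ∧ (∀ g x y, y < x → residue A (ρ g x y) = 0) ∧
    ∀ (g : AlgebraicClosure K ≃ₐ[K] AlgebraicClosure K) (N : ℕ),
      (∀ ζ : AlgebraicClosure K, ζ ^ p = 1 → g ζ = ζ ^ N) →
        ∀ x, residue A (ρ g x x) = (N : ResidueField A) ^ a x

end

section bridge

variable {K : Type} [Field K] [NumberField K] {k : Type} [Field k] {n : ℕ}

lemma not_isScalar_iff {b : Fin n → ℕ} {a : ℕ} {M : Matrix (Fin n) (Fin n) k} :
    ¬ IsScalar b a M ↔ ∀ s : k, M ≠ s • Helper27.TG.blk b a := by
  unfold IsScalar Helper27.TG.blk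
  push Not
  rfl

omit [NumberField K] in
lemma cocycle_iff {D : (AlgebraicClosure K ≃ₐ[K] AlgebraicClosure K) →* Matrix (Fin n) (Fin n) k}
    {b : Fin n → ℕ} {a c : ℕ}
    {κ : (AlgebraicClosure K ≃ₐ[K] AlgebraicClosure K) → Matrix (Fin n) (Fin n) k} :
    Cocycle D b a c κ ↔ Helper27.TG.Coc D b a c κ := by
  unfold Cocycle Helper27.TG.Coc
  simp only [not_isScalar_iff]

omit [NumberField K] in
lemma arrow_iff {S : Set (Ideal (𝓞 K))} {p : ℕ}
    {D : (AlgebraicClosure K ≃ₐ[K] AlgebraicClosure K) →* Matrix (Fin n) (Fin n) k}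
    {b : Fin n → ℕ} {a c : ℕ} : Arrow S p D b a c ↔ Helper27.TG.ExtEdge S p D b a c := by
  unfold Arrow Helper27.TG.ExtEdge
  simp only [cocycle_iff]

omit [NumberField K] in
lemma classArrow_iff
    {D : (AlgebraicClosure K ≃ₐ[K] AlgebraicClosure K) →* Matrix (Fin n) (Fin n) k}
    {b : Fin n → ℕ} {a c : ℕ} : ClassArrow D b a c ↔ Helper27.TG.ClsEdge D b a c := by
  unfold ClassArrow Helper27.TG.ClsEdge
  simp only [cocycle_iff]

omit [NumberField K] in
lemma localArrow_iff {S : Set (Ideal (𝓞 K))} {p : ℕ}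
    {D : (AlgebraicClosure K ≃ₐ[K] AlgebraicClosure K) →* Matrix (Fin n) (Fin n) k}
    {b : Fin n → ℕ} {a c : ℕ} : LocalArrow S p D b a c ↔ Helper27.TG.LocEdge S p D b a c := by
  unfold LocalArrow Helper27.TG.LocEdge
  simp only [not_isScalar_iff]

end bridge

theorem result (K : Type) [Field K] [NumberField K] (S : Set (Ideal (𝓞 K))) (n : ℕ) :
    ∃ N : Subgroup (AlgebraicClosure K ≃ₐ[K] AlgebraicClosure K),
      IsOpen (N : Set (AlgebraicClosure K ≃ₐ[K] AlgebraicClosure K)) ∧
      ∀ (p : ℕ) [Fact p.Prime] (A : Type) [CommRing A] [IsLocalRing A] [IsNoetherianRing A]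
        [TopologicalSpace A] [Finite (ResidueField A)] [CharP (ResidueField A) p]
        (ρ : (AlgebraicClosure K ≃ₐ[K] AlgebraicClosure K) →* GL (Fin n) A) (b : Fin n → ℕ)
        (D : (AlgebraicClosure K ≃ₐ[K] AlgebraicClosure K) →*
          Matrix (Fin n) (Fin n) (ResidueField A)),
        IsAdic (maximalIdeal A) → ResiduallyBlock S p ρ b D → NoWalk (Arrow S p D b) →
          -- the commutator subgroup of the kernel of `D` acts unipotently
          (∀ l : List (AlgebraicClosure K ≃ₐ[K] AlgebraicClosure K), l.length = n →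
            (∀ g ∈ l, g ∈ ⁅D.ker, D.ker⁆) →
            (l.map fun g => ((ρ g : Matrix (Fin n) (Fin n) A) - 1)).prod = 0) ∧
          -- finiteness
          (S.Finite → N ≤ ρ.ker ∧ (Set.range ρ).Finite) := by
  have hex : ∃ N : Subgroup (AlgebraicClosure K ≃ₐ[K] AlgebraicClosure K),
      IsOpen (N : Set (AlgebraicClosure K ≃ₐ[K] AlgebraicClosure K)) ∧ (S.Finite →
      ∀ (p : ℕ) [Fact p.Prime] (A : Type) [CommRing A] [IsLocalRing A] [IsNoetherianRing A]
        [TopologicalSpace A] [Finite (ResidueField A)] [CharP (ResidueField A) p]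
        (ρ : (AlgebraicClosure K ≃ₐ[K] AlgebraicClosure K) →* GL (Fin n) A) (b : Fin n → ℕ)
        (D : (AlgebraicClosure K ≃ₐ[K] AlgebraicClosure K) →*
          Matrix (Fin n) (Fin n) (ResidueField A)),
        IsAdic (maximalIdeal A) → ResiduallyBlock S p ρ b D →
        (¬ ∃ c : ℕ → ℕ, ∀ m, Helper27.TG.ExtEdge S p D b (c m) (c (m + 1))) → N ≤ ρ.ker) := by
    by_cases hS : S.Finite
    · obtain ⟨N, hN, hN'⟩ := Helper27.LP.exists_open_all K S hS n
      refine ⟨N, hN, fun _ => ?_⟩
      rintro p _ A _ _ _ _ _ _ ρ b D hA ⟨hρ, hT, htri, hD, hindex⟩ hno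
      exact hN' p A ρ b D hA hρ hT htri hD hindex hno
    · exact ⟨⊤, isOpen_univ, fun h => absurd h hS⟩
  obtain ⟨N, hN, hN'⟩ := hex
  refine ⟨N, hN, ?_⟩
  rintro p _ A _ _ _ _ _ _ ρ b D hA hres hno
  obtain ⟨hρ, hT, htri, hD, hindex⟩ := hres
  have hno' : ¬ ∃ c : ℕ → ℕ, ∀ m, Helper27.TG.ExtEdge S p D b (c m) (c (m + 1)) := by
    rintro ⟨c, hc⟩
    exact hno ⟨c, fun m => arrow_iff.2 (hc m)⟩
  refine ⟨fun l hn hl => ?_, fun hS => ?_⟩
  · exact Helper27.TG.prod_eq_zero' hA p ρ hρ hT b D htri hD hindex hno' l hl hn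
  · have h := hN' hS p A ρ b D hA ⟨hρ, hT, htri, hD, hindex⟩ hno'
    exact ⟨h, Helper27.TE.finite_range_of_open hN h⟩

/-- All arrows are local or come from the class group. -/
theorem local_or_class {K : Type} [Field K] [NumberField K] {S : Set (Ideal (𝓞 K))} {p : ℕ}
    [Fact p.Prime] {n : ℕ} {A : Type} [CommRing A] [IsLocalRing A] [IsNoetherianRing A]
    [TopologicalSpace A] [Finite (ResidueField A)] [CharP (ResidueField A) p]
    {ρ : (AlgebraicClosure K ≃ₐ[K] AlgebraicClosure K) →* GL (Fin n) A} {b : Fin n → ℕ}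
    {D : (AlgebraicClosure K ≃ₐ[K] AlgebraicClosure K) →* Matrix (Fin n) (Fin n) (ResidueField A)}
    (hA : IsAdic (maximalIdeal A)) (hres : ResiduallyBlock S p ρ b D) {a c : ℕ}
    (h : Arrow S p D b a c) : LocalArrow S p D b a c ∨ ClassArrow D b a c := by
  obtain ⟨hρ, hT, htri, hD, hindex⟩ := hres
  rw [arrow_iff] at h
  rw [localArrow_iff, classArrow_iff]
  exact Helper27.TG.loc_or_cls (S := S) p D b (fun g x y hxy => by rw [hD, if_neg hxy]) hindex hT
    ((Helper27.TE.ker_le_ker_red ρ 1).trans (Helper27.TE.ker_red_one_le ρ b D hD))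
    (Helper27.TE.isOpen_ker_D hA ρ hρ b D hD) h

/-- There are no loops at one-dimensional blocks. -/
theorem not_loop {K : Type} [Field K] [NumberField K] {k : Type} [Field k] {n : ℕ}
    {S : Set (Ideal (𝓞 K))} {p : ℕ}
    {D : (AlgebraicClosure K ≃ₐ[K] AlgebraicClosure K) →* Matrix (Fin n) (Fin n) k}
    {b : Fin n → ℕ} {a : ℕ} (ha : ∀ x y, b x = a → b y = a → x = y) : ¬ Arrow S p D b a a := by
  rintro ⟨κ, ⟨h1, -, -, -, g, hg, h2⟩, -⟩
  apply h2
  by_cases hx : ∃ x, b x = a
  · obtain ⟨x, hx⟩ := hx
    refine ⟨κ g x x, ?_⟩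
    ext y z
    rw [Matrix.smul_apply, Matrix.diagonal_apply, smul_eq_mul]
    by_cases h3 : κ g y z = 0
    · rw [h3]
      by_cases h4 : y = z ∧ b y = a
      · obtain ⟨rfl, h4⟩ := h4
        rw [ha x y hx h4, h3, zero_mul]
      · by_cases h5 : y = z
        · rw [if_pos h5, if_neg (fun h6 => h4 ⟨h5, h6⟩), mul_zero]
        · rw [if_neg h5, mul_zero]
    · obtain ⟨h4, h5⟩ := h1 g hg y z h3
      rw [ha y x h5 hx, ha z x h4 hx, if_pos rfl, if_pos hx, mul_one]
  · refine ⟨0, ?_⟩
    ext y z
    rw [zero_smul, Matrix.zero_apply]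
    by_contra h3
    exact hx ⟨y, (h1 g hg y z h3).2⟩

/-- Dimension two: a residually upper triangular representation has finite image, if its quiver
does not have arrows in both directions. -/
theorem two (K : Type) [Field K] [NumberField K] (S : Set (Ideal (𝓞 K))) (hS : S.Finite) (p : ℕ)
    [Fact p.Prime] (A : Type) [CommRing A] [IsLocalRing A] [IsNoetherianRing A] [TopologicalSpace A]
    [Finite (ResidueField A)] [CharP (ResidueField A) p]
    (ρ : (AlgebraicClosure K ≃ₐ[K] AlgebraicClosure K) →* GL (Fin 2) A)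
    (D : (AlgebraicClosure K ≃ₐ[K] AlgebraicClosure K) →* Matrix (Fin 2) (Fin 2) (ResidueField A))
    (hA : IsAdic (maximalIdeal A)) (hρ : ResiduallyBlock S p ρ (fun x => (x : ℕ)) D)
    (h : ¬ (Arrow S p D (fun x => (x : ℕ)) 0 1 ∧ Arrow S p D (fun x => (x : ℕ)) 1 0)) :
    (Set.range ρ).Finite := by
  obtain ⟨N, -, hN⟩ := result K S 2
  refine ((hN p A ρ _ D hA hρ ?_).2 hS).2
  rintro ⟨c, hc⟩
  apply h
  have hlt : ∀ m, c m < 2 ∧ c (m + 1) < 2 := by
    intro m
    obtain ⟨κ, ⟨h1, -, -, -, g, hg, h2⟩, -⟩ := hc m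
    by_contra h3
    apply h2
    refine ⟨0, ?_⟩
    ext y z
    rw [zero_smul, Matrix.zero_apply]
    by_contra h4
    obtain ⟨h5, h6⟩ := h1 g hg y z h4
    apply h3
    have := y.2
    have := z.2
    simp only at h5 h6
    omega
  have hne : ∀ m, c m ≠ c (m + 1) := by
    intro m h3
    have h4 := hc m
    rw [← h3] at h4
    exact not_loop (fun x y h5 h6 => Fin.ext (h5.trans h6.symm)) h4
  have h0 := hlt 0
  have h1 := hlt 1
  have h2 := hne 0
  have h3 := hne 1
  have h4 := hc 0
  have h5 := hc 1
  simp only [zero_add] at h0 h1 h2 h3 h4 h5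
  rcases (show (c 0 = 0 ∧ c 1 = 1 ∧ c (1 + 1) = 0) ∨ (c 0 = 1 ∧ c 1 = 0 ∧ c (1 + 1) = 1) by omega)
    with ⟨e0, e1, e2⟩ | ⟨e0, e1, e2⟩
  · rw [e0, e1] at h4
    rw [e1, e2] at h5
    exact ⟨h4, h5⟩
  · rw [e0, e1] at h4
    rw [e1, e2] at h5
    exact ⟨h5, h4⟩

/-- The case of powers of the cyclotomic character. -/
theorem cyclotomic (K : Type) [Field K] [NumberField K] (S : Set (Ideal (𝓞 K))) (p : ℕ)
    [Fact p.Prime] (hp2 : p ≠ 2) (hcl : ¬ p ∣ classNumber (CyclotomicField p K)) (n : ℕ) :
    ∃ N : Subgroup (AlgebraicClosure K ≃ₐ[K] AlgebraicClosure K),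
      IsOpen (N : Set (AlgebraicClosure K ≃ₐ[K] AlgebraicClosure K)) ∧
      ∀ (A : Type) [CommRing A] [IsLocalRing A] [IsNoetherianRing A] [TopologicalSpace A]
        [Finite (ResidueField A)] [CharP (ResidueField A) p]
        (ρ : (AlgebraicClosure K ≃ₐ[K] AlgebraicClosure K) →* GL (Fin n) A) (a : Fin n → ℕ),
        IsAdic (maximalIdeal A) → ResiduallyCyclotomic S p ρ a → NoWalk (Step S p a) →
        (∀ l : List (AlgebraicClosure K ≃ₐ[K] AlgebraicClosure K), l.length = n →
          (∀ g ∈ l, ∀ ζ : AlgebraicClosure K, ζ ^ p = 1 → g ζ = ζ) →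
          (l.map fun g => ((ρ g : Matrix (Fin n) (Fin n) A) - 1)).prod = 0) ∧
        (S.Finite → N ≤ ρ.ker ∧ (Set.range ρ).Finite) := by
  obtain ⟨N, hN, hN'⟩ : ∃ N : Subgroup (AlgebraicClosure K ≃ₐ[K] AlgebraicClosure K),
      IsOpen (N : Set (AlgebraicClosure K ≃ₐ[K] AlgebraicClosure K)) ∧ (S.Finite →
      ∀ (A : Type) [CommRing A] [IsLocalRing A] [IsNoetherianRing A] [TopologicalSpace A]
        [Finite (ResidueField A)] [CharP (ResidueField A) p]
        (ρ : (AlgebraicClosure K ≃ₐ[K] AlgebraicClosure K) →* GL (Fin n) A) (a : Fin n → ℕ),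
        IsAdic (maximalIdeal A) → ResiduallyCyclotomic S p ρ a → NoWalk (Step S p a) →
        N ≤ ρ.ker) := by
    by_cases hS : S.Finite
    · obtain ⟨N, hN, hN'⟩ := Helper27.TE.exists_open_cyc K S hS p hp2 hcl n
      refine ⟨N, hN, fun _ => ?_⟩
      rintro A _ _ _ _ _ _ ρ a hA ⟨hρ, hT, htri, hdiag⟩ hno
      exact hN' A ρ a hA hρ hT htri hdiag hno
    · exact ⟨⊤, isOpen_univ, fun h => absurd h hS⟩
  refine ⟨N, hN, ?_⟩
  rintro A _ _ _ _ _ _ ρ a hA hres hno
  obtain ⟨hρ, hT, htri, hdiag⟩ := hres
  refine ⟨fun l hn hl => ?_, fun hS => ?_⟩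
  · exact Helper27.TE.prod_eq_zero_cyc hA p hp2 hcl ρ hρ hT a htri hdiag hno l hl hn
  · have h := hN' hS A ρ a hA ⟨hρ, hT, htri, hdiag⟩ hno
    exact ⟨h, Helper27.TE.finite_range_of_open hN h⟩

/-- There is no infinite walk if `f` divides the orders of the norms modulo `p` and the exponents do
not represent all residue classes modulo `f`, for instance if `n < f`. -/
theorem noWalk_step {K : Type} [Field K] [NumberField K] {S : Set (Ideal (𝓞 K))} {p : ℕ}
    [Fact p.Prime] {n : ℕ} (a : Fin n → ℕ) {f : ℕ} (hf : n < f ∨ ∃ r, ∀ i, ¬ a i ≡ r [MOD f])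
    (hord : ∀ q ∈ S, q.IsMaximal → (p : 𝓞 K) ∉ q →
      f ∣ orderOf ((Nat.card (𝓞 K ⧸ q) : ℕ) : ZMod p)) : NoWalk (Step S p a) := by
  rintro ⟨c, hc⟩
  obtain ⟨r, hr⟩ : ∃ r, ∀ i, ¬ a i ≡ r [MOD f] :=
    hf.elim (fun h => Helper27.TE.exists_missing h a) id
  refine Helper27.TE.no_walk_gen p a hr c fun m => ?_
  obtain ⟨q, hqS, hq, hpq, h⟩ := hc m
  exact ⟨_, Helper27.TE.card_ne_zero p q hq hpq, hord q hqS hq hpq, h⟩

/-- The case of the rational numbers and of a regular prime `p`: let `T` be a finite set of primes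
such that `f` divides the orders modulo `p` of all primes in `T` different from `p`. All
representations of dimension `n` which are tame in `T` and residually upper triangular with diagonal
characters powers of the cyclotomic character, whose exponents do not represent all residue classes
modulo `f`, over all coefficient rings, factor through one finite quotient. -/
theorem rational (p : ℕ) [Fact p.Prime] (hp2 : p ≠ 2)
    (hreg : ¬ p ∣ classNumber (CyclotomicField p ℚ)) (T : Finset ℕ) (f : ℕ)
    (hT : ∀ q ∈ T, q.Prime ∧ (q ≠ p → f ∣ orderOf (q : ZMod p))) (n : ℕ) :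
    ∃ N : Subgroup (AlgebraicClosure ℚ ≃ₐ[ℚ] AlgebraicClosure ℚ),
      IsOpen (N : Set (AlgebraicClosure ℚ ≃ₐ[ℚ] AlgebraicClosure ℚ)) ∧
      ∀ (A : Type) [CommRing A] [IsLocalRing A] [IsNoetherianRing A] [TopologicalSpace A]
        [Finite (ResidueField A)] [CharP (ResidueField A) p]
        (ρ : (AlgebraicClosure ℚ ≃ₐ[ℚ] AlgebraicClosure ℚ) →* GL (Fin n) A) (a : Fin n → ℕ),
        IsAdic (maximalIdeal A) →
        ResiduallyCyclotomic {Q : Ideal (𝓞 ℚ) | Q.IsMaximal ∧ ∃ q ∈ T, (q : 𝓞 ℚ) ∈ Q} p ρ a →
        (n < f ∨ ∃ r, ∀ i, ¬ a i ≡ r [MOD f]) →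
        N ≤ ρ.ker ∧ (Set.range ρ).Finite := by
  obtain ⟨N, hN, hN'⟩ := cyclotomic ℚ
    {Q : Ideal (𝓞 ℚ) | Q.IsMaximal ∧ ∃ q ∈ T, (q : 𝓞 ℚ) ∈ Q} p hp2 hreg n
  refine ⟨N, hN, ?_⟩
  intro A _ _ _ _ _ _ ρ a hA hρ hf
  have hno : NoWalk (Step {Q : Ideal (𝓞 ℚ) | Q.IsMaximal ∧ ∃ q ∈ T, (q : 𝓞 ℚ) ∈ Q} p a) := by
    refine noWalk_step a hf ?_
    rintro Q ⟨hQ, q, hq, hqQ⟩ - hp
    rw [Helper27.TE.card_quot_rat Q hQ (hT q hq).1 hqQ]
    refine (hT q hq).2 ?_
    rintro rfl
    exact hp hqQ
  exact (hN' A ρ a hA hρ hno).2 (Helper27.TE.finite_above_rat T fun q hq => (hT q hq).1)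

end Pool.Agent.Results.MP_924d78_nt.AcyclicQuiver
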