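import Pool.Agent.Helper27.TFM.Adic
import Pool.Agent.Helper27.TFM.Final

/-!
# Coefficient rings in the tame finiteness question

For a fixed number field `K`, a fixed set `S` of primes of `K` and a fixed prime `p`: every
continuous representation of the absolute Galois group of `K`, unramified outside `S` and at most
tamely ramified in `S`, over every complete Noetherian local ring with finite residue field of
characteristic `p` has finite image if and only if this holds for the two rings `ℤ_p` and
`𝔽_p⟦X⟧`.

Idea of the proof. Let `Γ` be the quotient of the Galois group by the kernel of the representation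
over `A`. Finiteness over `ℤ_p` and `𝔽_p⟦X⟧` in all dimensions gives finiteness over the complete
local domains of dimension one, which are finite and free over one of the two rings, by restriction
of scalars. One then shows by Noetherian induction on the ideal `I` of `A` that the subgroup of all
elements which are the identity modulo `I` is open. Homomorphisms of open subgroups of `Γ` to the
additive groups `A / P` have finite image, because they give unipotent representations induced to
`Γ`; this handles the step from `J` to `J P`. For a prime `P` of larger coheight one uses the ideals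
of `A` strictly above `P`, Serre's lemma on torsion in congruence subgroups and the fact that a
product of augmentations of a `p`-group in characteristic `p` vanishes.
-/

set_option autoImplicit false

open NumberField IsLocalRing PowerSeries

open scoped PowerSeries.WithPiTopology

namespace Pool.Agent.Results.MP_924d78_nt.CoefficientReduction

/-- The homomorphism `ρ` from the absolute Galois group of `K` is unramified outside `S` and at most
tamely ramified in `S`: for every number field `F` over `K`, embedded into the fixed field of the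
kernel of `ρ`, and every maximal ideal `P` of the ring of integers of `F` above a prime `q` of `K`,
the ramification index `e` of `P` over `q` is `1` if `q ∉ S` and is prime to the residue
characteristic if `q ∈ S`. -/
def TameAt (K : Type) [Field K] [NumberField K] (S : Set (Ideal (𝓞 K))) {H : Type} [Group H]
    (ρ : (AlgebraicClosure K ≃ₐ[K] AlgebraicClosure K) →* H) : Prop :=
  ∀ (F : Type) [Field F] [NumberField F] [Algebra K F] (ι : F →ₐ[K] AlgebraicClosure K),
    ι.fieldRange ≤ IntermediateField.fixedField ρ.ker →
    ∀ (P : Ideal (𝓞 F)), P.IsMaximal →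
    ∀ (q : Ideal (𝓞 K)), q = P.comap (algebraMap (𝓞 K) (𝓞 F)) →
    ∀ e : ℕ, q.map (algebraMap (𝓞 K) (𝓞 F)) ≤ P ^ e →
      ¬ (q.map (algebraMap (𝓞 K) (𝓞 F)) ≤ P ^ (e + 1)) →
      (q ∉ S → e = 1) ∧ (q ∈ S → ¬ (ringChar (𝓞 K ⧸ q) ∣ e))

/-- Every continuous representation of the absolute Galois group of `K` over `A`, of any dimension,
which is unramified outside `S` and at most tamely ramified in `S`, has finite image. -/
def FiniteImages (K : Type) [Field K] [NumberField K] (S : Set (Ideal (𝓞 K)))
    (A : Type) [CommRing A] [TopologicalSpace A] : Prop :=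
  ∀ (n : ℕ)
    (ρ : (AlgebraicClosure K ≃ₐ[K] AlgebraicClosure K) →* Matrix.GeneralLinearGroup (Fin n) A),
    Continuous ρ → TameAt K S ρ → (Set.range ρ).Finite

lemma TameAt.mono {K : Type} [Field K] [NumberField K] {S : Set (Ideal (𝓞 K))} {H H' : Type}
    [Group H] [Group H'] {ρ : (AlgebraicClosure K ≃ₐ[K] AlgebraicClosure K) →* H}
    {ρ' : (AlgebraicClosure K ≃ₐ[K] AlgebraicClosure K) →* H'} (h : ρ.ker ≤ ρ'.ker)
    (hρ : TameAt K S ρ) : TameAt K S ρ' := by
  intro F _ _ _ ι hι
  exact hρ F ι (hι.trans (IntermediateField.fixedField_antitone h))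

lemma finite_of_two (K : Type) [Field K] [NumberField K] (S : Set (Ideal (𝓞 K))) (p : ℕ)
    [Fact p.Prime] (h1 : FiniteImages K S ℤ_[p]) (h2 : FiniteImages K S (ZMod p)⟦X⟧)
    (A : Type) [CommRing A] [IsLocalRing A] [IsNoetherianRing A] [TopologicalSpace A]
    (hA : IsAdic (maximalIdeal A)) (hc : IsAdicComplete (maximalIdeal A) A)
    (hf : Finite (ResidueField A)) (hp : CharP (ResidueField A) p) : FiniteImages K S A := by
  intro n ρ hρ hT
  have hpm : (p : A) ∈ maximalIdeal A := by
    rw [← residue_eq_zero_iff, map_natCast]
    exact CharP.cast_eq_zero _ p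
  let Γ := (AlgebraicClosure K ≃ₐ[K] AlgebraicClosure K) ⧸ ρ.ker
  let σ : Γ →* Matrix.GeneralLinearGroup (Fin n) A := QuotientGroup.kerLift ρ
  have hσ : Continuous σ := by
    refine continuous_quot_lift _ hρ
  have hσr : Set.range ρ ⊆ Set.range σ := by
    rintro _ ⟨g, rfl⟩
    exact ⟨(g : Γ), rfl⟩
  refine (Pool.Agent.Helper27.TFM.coefficient_reduction (Γ := Γ) p hA hpm ?_ ?_ σ hσ).subset hσr
  · intro m τ hτ
    have h3 := h1 m (τ.comp (QuotientGroup.mk' ρ.ker)) (hτ.comp continuous_quot_mk)
      (hT.mono (by
        intro g hg
        rw [MonoidHom.mem_ker] at hg ⊢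
        rw [MonoidHom.comp_apply, QuotientGroup.mk'_apply, (QuotientGroup.eq_one_iff g).2 hg,
          map_one]))
    refine h3.subset ?_
    rintro _ ⟨g, rfl⟩
    obtain ⟨g, rfl⟩ := QuotientGroup.mk_surjective g
    exact ⟨g, rfl⟩
  · intro m τ hτ
    have h3 := h2 m (τ.comp (QuotientGroup.mk' ρ.ker)) (hτ.comp continuous_quot_mk)
      (hT.mono (by
        intro g hg
        rw [MonoidHom.mem_ker] at hg ⊢
        rw [MonoidHom.comp_apply, QuotientGroup.mk'_apply, (QuotientGroup.eq_one_iff g).2 hg,
          map_one]))
    refine h3.subset ?_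
    rintro _ ⟨g, rfl⟩
    obtain ⟨g, rfl⟩ := QuotientGroup.mk_surjective g
    exact ⟨g, rfl⟩

theorem result (K : Type) [Field K] [NumberField K] (S : Set (Ideal (𝓞 K))) (p : ℕ)
    [Fact p.Prime] :
    (∀ (A : Type) [CommRing A] [IsLocalRing A] [IsNoetherianRing A] [TopologicalSpace A],
      IsAdic (maximalIdeal A) → IsAdicComplete (maximalIdeal A) A →
      Finite (ResidueField A) → CharP (ResidueField A) p → FiniteImages K S A) ↔
    FiniteImages K S ℤ_[p] ∧ FiniteImages K S (ZMod p)⟦X⟧ := by
  constructor
  · intro h
    exact ⟨h ℤ_[p] (Pool.Agent.Helper27.TFM.isAdic_padic p) inferInstance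
        (Pool.Agent.Helper27.TFM.finite_res_padic p) (Pool.Agent.Helper27.TFM.char_res_padic p),
      h (ZMod p)⟦X⟧ (Pool.Agent.Helper27.TFM.isAdic_power p)
        (Pool.Agent.Helper27.TFM.complete_power p) (Pool.Agent.Helper27.TFM.finite_res_power p)
        (Pool.Agent.Helper27.TFM.char_res_power p)⟩
  · rintro ⟨h1, h2⟩ A _ _ _ _ hA hc hf hp
    exact finite_of_two K S p h1 h2 A hA hc hf hp

end Pool.Agent.Results.MP_924d78_nt.CoefficientReduction
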