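import Pool.Agent.Helper49.AXU.W20

namespace Pool.Agent.Results.MP_274814_nt.FewExceptionalSets

open MvPolynomial Filter

/-- The first Bernoulli function `x - [x] - 1/2`. -/
def B1 (x : ℚ) : ℚ := Int.fract x - 1 / 2

/-- `J` is standard-independent in degree `d`: if `m_r, n_r ≥ 0` (`r ∈ J`) are integers with sums `≤ d` and
`∑_r (m_r - n_r) B1 (u r) = 0` for all integers `u` prime to the denominators of the elements of `J`, then
`m_r = n_r` for all `r ∈ J`. -/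
def StdIndep (d : ℕ) (J : Finset ℚ) : Prop :=
  ∀ m n : ℚ → ℕ, ∑ r ∈ J, m r ≤ d → ∑ r ∈ J, n r ≤ d →
    (∀ u : ℤ, (∀ r ∈ J, IsCoprime u (r.den : ℤ)) → ∑ r ∈ J, ((m r : ℚ) - n r) * B1 (u * r) = 0) →
    ∀ r ∈ J, m r = n r

/-- `z` is a zero of `P`, and `P` does not become the polynomial `0` if only the coordinates `z_i`, `i ∉ I`,
are substituted, for any nonempty set `I` of indices. -/
def ProperZero {k : ℕ} (P : MvPolynomial (Fin k) ℂ) (z : Fin k → ℂ) : Prop :=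
  eval z P = 0 ∧ ∀ I : Finset (Fin k), I.Nonempty →
    aeval (fun i => if i ∈ I then (X i : MvPolynomial (Fin k) ℂ) else C (z i)) P ≠ 0

/-- The tuples of `k` different rational numbers `r_i` in `(0, 1)` with denominators `≤ Q`, which are
standard-independent in degree `d` and for which `(Γ(r_1), ..., Γ(r_k))` is a proper zero of some
`∑_j y_j P_j` with integers `|y_j| ≤ H`. -/
def ZeroTuples {k n : ℕ} (P : Fin n → MvPolynomial (Fin k) ℂ) (d H Q : ℕ) : Set (Fin k → ℚ) :=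
  {r | Function.Injective r ∧ (∀ i, 0 < r i ∧ r i < 1 ∧ (r i).den ≤ Q) ∧
    StdIndep d (Finset.univ.image r) ∧ ∃ y : Fin n → ℤ, (∀ j, |y j| ≤ (H : ℤ)) ∧
      ProperZero (∑ j, (y j : ℂ) • P j) (fun i => Complex.Gamma ((r i : ℚ) : ℂ))}

/-- The numbers `∑_j a_j λ_j` with integers `|a_j| ≤ H`. -/
def Coeffs {n : ℕ} (lam : Fin n → ℂ) (H : ℕ) : Set ℂ :=
  {z : ℂ | ∃ a : Fin n → ℤ, (∀ j, |a j| ≤ (H : ℤ)) ∧ z = ∑ j, (a j : ℂ) * lam j}

/-- The `Γ(r)`, `r ∈ J`, are a zero of a nonzero polynomial of total degree `≤ d` with coefficients in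
`Coeffs lam H`. -/
def Dep {n : ℕ} (lam : Fin n → ℂ) (d H : ℕ) (J : Finset ℚ) : Prop :=
  ∃ P : MvPolynomial J ℂ, P ≠ 0 ∧ P.totalDegree ≤ d ∧ (∀ ν, coeff ν P ∈ Coeffs lam H) ∧
    eval (fun r : J => Complex.Gamma ((r : ℚ) : ℂ)) P = 0

/-- The sets `J` of `k` rational numbers in `(0, 1)` with denominators `≤ Q` which are standard-independent
in degree `d` and satisfy `Dep lam d H J`. -/
def DepSets {n : ℕ} (lam : Fin n → ℂ) (k d H Q : ℕ) : Set (Finset ℚ) :=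
  {J : Finset ℚ | J.card = k ∧ (∀ r ∈ J, 0 < r ∧ r < 1 ∧ r.den ≤ Q) ∧ StdIndep d J ∧ Dep lam d H J}

/-- The sets `J` of at most `k` rational numbers in `(0, 1)` with denominators `≤ Q` which are
standard-independent in degree `d` and satisfy `Dep lam d H J`, while no proper subset `J'` of `J`
satisfies `Dep lam d H J'`. -/
def MinSets {n : ℕ} (lam : Fin n → ℂ) (k d H Q : ℕ) : Set (Finset ℚ) :=
  {J : Finset ℚ | J.card ≤ k ∧ (∀ r ∈ J, 0 < r ∧ r < 1 ∧ r.den ≤ Q) ∧ StdIndep d J ∧ Dep lam d H J ∧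
    ∀ J', J' ⊂ J → ¬ Dep lam d H J'}

/-- `π` and the `Γ(r)`, `r ∈ J`, are a zero of a nonzero polynomial over `ℤ` of total degree `≤ d` with
coefficients of absolute value `≤ H`. -/
def PiDep (d H : ℕ) (J : Finset ℚ) : Prop :=
  ∃ P : MvPolynomial (Option J) ℤ, P ≠ 0 ∧ P.totalDegree ≤ d ∧ (∀ ν, |coeff ν P| ≤ (H : ℤ)) ∧
    aeval (fun o : Option J => o.elim (Real.pi : ℂ) (fun r => Complex.Gamma ((r : ℚ) : ℂ))) P = 0

theorem result :
    (∀ (k n d : ℕ) (ε : ℝ), 0 < ε → ∃ C : ℝ, ∀ H Q : ℕ, 1 ≤ H → 1 ≤ Q →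
      (∀ P : Fin n → MvPolynomial (Fin k) ℂ, (∀ j, (P j).totalDegree ≤ d) →
        (ZeroTuples P d H Q).Finite ∧
        ((ZeroTuples P d H Q).ncard : ℝ) ≤ C * ((Q : ℝ) * H) ^ ε) ∧
      ∀ lam : Fin n → ℂ, (MinSets lam k d H Q).Finite ∧ (DepSets lam k d H Q).Finite ∧
        ((MinSets lam k d H Q).ncard : ℝ) ≤ C * ((Q : ℝ) * H) ^ ε ∧
        ((DepSets lam k d H Q).ncard : ℝ) ≤
          C * (((Q : ℝ) * H) ^ ε * (Q : ℝ) ^ (2 * ((k : ℝ) - 1)))) ∧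
    (∃ m : ℕ → ℕ, Tendsto m atTop atTop ∧ ∀ ε : ℝ, 0 < ε → ∃ C : ℝ,
      ∀ (Q n d H : ℕ) (lam : Fin n → ℂ), 1 ≤ Q → n ≤ m Q → d ≤ m Q → H ≤ Q ^ m Q →
        ((MinSets lam (m Q) d H Q).ncard : ℝ) ≤ C * (Q : ℝ) ^ ε) ∧
    (∀ (d H : ℕ) (J : Finset ℚ), PiDep d H J →
      Dep (fun j : Fin (d + 1) => (Real.pi : ℂ) ^ (j : ℕ)) d H J) ∧
    ∀ J : Finset ℚ, (∀ r ∈ J, 0 < r ∧ r < 1) → (StdIndep 1 J ↔ (1 / 2 : ℚ) ∉ J) := by
  have hsub : ∀ (n : ℕ) (lam : Fin n → ℂ) (k d H Q : ℕ), DepSets lam k d H Q ⊆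
      Pool.Agent.Helper49.AXU.AllL (Pool.Agent.Helper49.AXU.Lam lam H) k d Q :=
    fun n lam k d H Q J hJ => ⟨hJ.1, hJ.2.1, Pool.Agent.Helper49.AXU.NR_of_StdInd
      (fun r hr => ⟨(hJ.2.1 r hr).1, (hJ.2.1 r hr).2.1⟩) hJ.2.2.1, hJ.2.2.2⟩
  have hsub' : ∀ (n : ℕ) (lam : Fin n → ℂ) (k d H Q : ℕ), MinSets lam k d H Q ⊆
      Pool.Agent.Helper49.AXU.MinLe (Pool.Agent.Helper49.AXU.Lam lam H) k d Q :=
    fun n lam k d H Q J hJ => ⟨hJ.1, hJ.2.1, Pool.Agent.Helper49.AXU.NR_of_StdInd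
      (fun r hr => ⟨(hJ.2.1 r hr).1, (hJ.2.1 r hr).2.1⟩) hJ.2.2.1, hJ.2.2.2⟩
  have hsubT : ∀ (k n : ℕ) (P : Fin n → MvPolynomial (Fin k) ℂ) (d H Q : ℕ), ZeroTuples P d H Q ⊆
      Pool.Agent.Helper49.AXU.FamT P d H Q := by
    intro k n P d H Q r hr
    refine ⟨hr.2.1, ?_, hr.2.2.2⟩
    refine Pool.Agent.Helper49.AXU.NR_pull (Pool.Agent.Helper49.AXU.NR_of_StdInd (fun x hx => ?_)
      hr.2.2.1) r (fun i _ j _ h => hr.1 h) (fun i _ => Finset.mem_image_of_mem r (Finset.mem_univ i))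
      (fun i _ => rfl)
    obtain ⟨i, -, rfl⟩ := Finset.mem_image.1 hx
    exact ⟨(hr.2.1 i).1, (hr.2.1 i).2.1⟩
  have hle : ∀ (n : ℕ) (lam : Fin n → ℂ) (k d H Q : ℕ), ((MinSets lam k d H Q).ncard : ℝ) ≤
      (Pool.Agent.Helper49.AXU.MinLe (Pool.Agent.Helper49.AXU.Lam lam H) k d Q).ncard := by
    intro n lam k d H Q
    exact_mod_cast Set.ncard_le_ncard (hsub' n lam k d H Q)
      (Pool.Agent.Helper49.AXU.minLe_finite _ _ _ _)
  refine ⟨?_, ?_, ?_, ?_⟩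
  · intro k n d ε hε
    obtain ⟨C₀, hC₀, h₀⟩ := Pool.Agent.Helper49.AXU.count_fam k n d hε
    obtain ⟨C₁, hC₁, h₁⟩ := Pool.Agent.Helper49.AXU.count_minLeH k n d hε
    obtain ⟨C₂, hC₂, h₂⟩ := Pool.Agent.Helper49.AXU.count_allLH k n d hε
    refine ⟨C₀ + C₁ + C₂, fun H Q hH hQ => ⟨fun P hP => ?_, fun lam => ?_⟩⟩
    · have hfin := Pool.Agent.Helper49.AXU.famT_finite P d H Q
      refine ⟨hfin.subset (hsubT _ _ _ _ _ _), ?_⟩
      have h3 := Set.ncard_le_ncard (hsubT k n P d H Q) hfin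
      have h4 : ((ZeroTuples P d H Q).ncard : ℝ) ≤ C₀ * ((Q : ℝ) * H) ^ ε :=
        (by exact_mod_cast h3 : ((ZeroTuples P d H Q).ncard : ℝ) ≤
          (Pool.Agent.Helper49.AXU.FamT P d H Q).ncard).trans (h₀ P hP H Q hQ hH)
      exact h4.trans (mul_le_mul_of_nonneg_right (by linarith) (by positivity))
    · have hfin := Pool.Agent.Helper49.AXU.allL_finite (Pool.Agent.Helper49.AXU.Lam lam H) k d Q
      have hfin' := Pool.Agent.Helper49.AXU.minLe_finite (Pool.Agent.Helper49.AXU.Lam lam H) k d Q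
      refine ⟨hfin'.subset (hsub' _ _ _ _ _ _), hfin.subset (hsub _ _ _ _ _ _), ?_, ?_⟩
      · refine ((hle _ _ _ _ _ _).trans (h₁ lam H Q hQ hH)).trans ?_
        exact mul_le_mul_of_nonneg_right (by linarith) (by positivity)
      · have h3 := Set.ncard_le_ncard (hsub n lam k d H Q) hfin
        have h4 : ((DepSets lam k d H Q).ncard : ℝ) ≤
            C₂ * (((Q : ℝ) * H) ^ ε * (Q : ℝ) ^ (2 * ((k : ℝ) - 1))) :=
          (by exact_mod_cast h3 : ((DepSets lam k d H Q).ncard : ℝ) ≤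
            (Pool.Agent.Helper49.AXU.AllL (Pool.Agent.Helper49.AXU.Lam lam H) k d Q).ncard).trans
            (h₂ lam H Q hQ hH)
        exact h4.trans (mul_le_mul_of_nonneg_right (by linarith) (by positivity))
  · obtain ⟨m, hm, h⟩ := Pool.Agent.Helper49.AXU.count_diag
    refine ⟨m, hm, fun ε hε => ?_⟩
    obtain ⟨C, -, hC⟩ := h ε hε
    exact ⟨C, fun Q n d H lam hQ hn hd hH => (hle _ _ _ _ _ _).trans (hC Q n d H lam hQ hn hd hH)⟩
  · rintro d H J ⟨P, h1, h2, h3, h4⟩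
    exact Pool.Agent.Helper49.AXU.depL_of_pi P h1 h2 h3 h4
  · intro J hJ
    exact Pool.Agent.Helper49.AXU.stdInd_one hJ

end Pool.Agent.Results.MP_274814_nt.FewExceptionalSets
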