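import Pool.Agent.Helper27.SP.S5
import Pool.Agent.Helper27.SP.S11

/-!
MP_62614e_nt: solutions of `n! ≡ lam (mod p)` near special points, for almost all primes.
-/

set_option autoImplicit false

namespace Pool.Agent.Helper27.Old.SpecialPoints

open Finset Polynomial
open scoped Nat
open Pool.Agent.Helper27.SP (Near)

/-- Explicit bounds for the number of exceptional primes.
(1) Near the multiples `u p / b`, `b ≤ B`, of the prime no value is taken more than `K` times.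
(2) Near the roots modulo `p` of an irreducible polynomial `F` of degree at most `d` and height at
most `B` the factorials are pairwise different, except when `F = ±((X + k + 1) ... (X + k + a) - 1)`
forces a coincidence.
(3) Near `0`, `p / 2` and `p` the values `1` and `-1` are taken less than `K` times, the places
`1`, `(p - 1) / 2`, `p - 2`, `p - 1` not counted.
(4) The same near the multiples of `(p - 1) / 3` and `(p - 1) / 4` (when these are integers), at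
distance at least `2`. -/
theorem result :
    (∀ B y K : ℕ, 1 ≤ B → 1 ≤ y → 1 ≤ K →
      ∃ S : Finset ℕ,
        (S.card : ℝ) ≤ 210 * (B : ℝ) ^ 2 * (y : ℝ) ^ 3 * Real.log (2 * B * y) / (K : ℝ) ^ 2 ∧
        ∀ p : ℕ, p.Prime → B < p → p ∉ S → ∀ b u : ℕ, 1 ≤ b → b ≤ B → u ≤ b → Nat.Coprime u b →
          ∀ lam : ℤ, ((Ico 1 p).filter fun n : ℕ => |(b : ℤ) * (n : ℤ) - u * p| ≤ b * y ∧
            (p : ℤ) ∣ (n ! : ℤ) - lam).card ≤ K) ∧
    (∀ d B y : ℕ, 1 ≤ d → 1 ≤ B → 1 ≤ y →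
      ∃ S : Finset ℕ,
        (S.card : ℝ) ≤ 90 * d * (3 * (B : ℝ)) ^ (d + 1) * (y : ℝ) ^ 3 * Real.log (2 * B * y) ∧
        ∀ p : ℕ, p.Prime → p ∉ S → ∀ F : ℤ[X], Irreducible F → F.natDegree ≤ d →
          (∀ i, |F.coeff i| ≤ B) → ∀ m : ℤ, (p : ℤ) ∣ F.eval m → ∀ n n' : ℕ, n < p → n < n' →
          |(n : ℤ) - m| ≤ y → |(n' : ℤ) - m| ≤ y → (p : ℤ) ∣ (n' ! : ℤ) - n ! →
          F = ∏ i ∈ range (n' - n), (X + C ((n : ℤ) - m + ((i : ℤ) + 1))) - 1 ∨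
          F = -(∏ i ∈ range (n' - n), (X + C ((n : ℤ) - m + ((i : ℤ) + 1))) - 1)) ∧
    (∀ y K : ℕ, 1 ≤ y → 1 ≤ K →
      ∃ S : Finset ℕ, (S.card : ℝ) ≤ 24 * (y : ℝ) ^ 2 * Real.log (2 * y) / K ∧
        ∀ p : ℕ, p.Prime → p ∉ S →
          ((Ico 1 p).filter fun n : ℕ => (p : ℤ) ∣ (n ! : ℤ) ^ 2 - 1 ∧ n ≠ 1 ∧ 2 * n + 1 ≠ p ∧
            n + 2 ≠ p ∧ n + 1 ≠ p ∧ (n ≤ y ∨ |2 * (n : ℤ) - p| ≤ 2 * y ∨ p ≤ n + y)).card < K) ∧
    (∀ x y K : ℕ, 1 ≤ x → 1 ≤ y → 1 ≤ K →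
      ∃ S : Finset ℕ, (S.card : ℝ) ≤ 410 * √(x : ℝ) * (y : ℝ) ^ 2 * Real.log (24 * x * y) / K ∧
        ∀ p : ℕ, p.Prime → p ≤ x → p ∉ S →
          ({n ∈ Ico 1 p | (p : ℤ) ∣ (n ! : ℤ) ^ 2 - 1 ∧
            ((3 ∣ p - 1 ∧ (Near n ((p - 1) / 3) y ∨ Near n (2 * ((p - 1) / 3)) y)) ∨
            (4 ∣ p - 1 ∧ (Near n ((p - 1) / 4) y ∨ Near n (3 * ((p - 1) / 4)) y)))} :
              Set ℕ).ncard < K) :=
  ⟨Pool.Agent.Helper27.SP.rational_points, Pool.Agent.Helper27.SP.algebraic_points,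
    Pool.Agent.Helper27.SP.special_values, Pool.Agent.Helper27.SP.cm_points⟩

end Pool.Agent.Helper27.Old.SpecialPoints
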